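import Mathlib

set_option autoImplicit false

open Matrix
open scoped ComplexOrder MatrixOrder

namespace Pool.Agent.U324.MTI

variable {ι : Type*} [Fintype ι] [DecidableEq ι]

/-- real part of the trace -/
noncomputable def tr (X : Matrix ι ι ℂ) : ℝ := X.trace.re

omit [DecidableEq ι] in
lemma tr_add (X Y : Matrix ι ι ℂ) : tr (X + Y) = tr X + tr Y := by
  simp [tr, Matrix.trace_add]

omit [DecidableEq ι] in
lemma tr_sub (X Y : Matrix ι ι ℂ) : tr (X - Y) = tr X - tr Y := by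
  simp [tr, Matrix.trace_sub]

omit [DecidableEq ι] in
lemma tr_zero : tr (0 : Matrix ι ι ℂ) = 0 := by
  simp [tr]

omit [DecidableEq ι] in
lemma tr_mul_comm (X Y : Matrix ι ι ℂ) : tr (X * Y) = tr (Y * X) := by
  simp [tr, Matrix.trace_mul_comm X Y]

omit [DecidableEq ι] in
lemma tr_sum {κ : Type*} (s : Finset κ) (f : κ → Matrix ι ι ℂ) :
    tr (∑ k ∈ s, f k) = ∑ k ∈ s, tr (f k) := by
  simp [tr, Matrix.trace_sum]

omit [DecidableEq ι] in
lemma tr_smul (c : ℝ) (X : Matrix ι ι ℂ) : tr (c • X) = c * tr X := by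
  simp [tr, Matrix.trace_smul]

omit [DecidableEq ι] in
lemma tr_conjTranspose (X : Matrix ι ι ℂ) : tr Xᴴ = tr X := by
  simp [tr, Matrix.trace_conjTranspose]

omit [DecidableEq ι] in
lemma tr_nonneg {X : Matrix ι ι ℂ} (h : X.PosSemidef) : 0 ≤ tr X := by
  have := h.trace_nonneg
  exact (Complex.le_def.1 this).1

lemma tr_mul_nonneg {X Y : Matrix ι ι ℂ} (hX : X.PosSemidef) (hY : Y.PosSemidef) :
    0 ≤ tr (X * Y) := by
  obtain ⟨B, rfl⟩ := CStarAlgebra.nonneg_iff_eq_star_mul_self.mp hY.nonneg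
  rw [← Matrix.mul_assoc, tr_mul_comm, ← Matrix.mul_assoc]
  exact tr_nonneg (hX.mul_mul_conjTranspose_same B)

/-- squared Hilbert-Schmidt norm -/
noncomputable def hs (X : Matrix ι ι ℂ) : ℝ := tr (Xᴴ * X)

omit [DecidableEq ι] in
lemma hs_nonneg (X : Matrix ι ι ℂ) : 0 ≤ hs X := tr_nonneg (posSemidef_conjTranspose_mul_self X)

omit [DecidableEq ι] in
lemma hs_add_le (X Y : Matrix ι ι ℂ) : hs (X + Y) ≤ 2 * hs X + 2 * hs Y := by
  have h := hs_nonneg (X - Y)
  have e : hs (X + Y) + hs (X - Y) = 2 * hs X + 2 * hs Y := by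
    unfold hs
    rw [← tr_add]
    have : (X + Y)ᴴ * (X + Y) + (X - Y)ᴴ * (X - Y) = (Xᴴ * X + Xᴴ * X) + (Yᴴ * Y + Yᴴ * Y) := by
      simp only [conjTranspose_add, conjTranspose_sub]
      noncomm_ring
    rw [this]
    simp only [tr_add]
    ring
  linarith

/-- orthogonal projections -/
structure IsProj (P : Matrix ι ι ℂ) : Prop where
  herm : Pᴴ = P
  idem : P * P = P

lemma IsProj.one_sub {P : Matrix ι ι ℂ} (h : IsProj P) : IsProj (1 - P) := by
  refine ⟨by rw [conjTranspose_sub, h.herm, conjTranspose_one], ?_⟩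
  have := h.idem
  calc (1 - P) * (1 - P) = 1 - P - P + P * P := by noncomm_ring
    _ = 1 - P := by rw [this]; abel

omit [DecidableEq ι] in
lemma IsProj.zero : IsProj (0 : Matrix ι ι ℂ) := ⟨by simp, by simp⟩

omit [DecidableEq ι] in
lemma IsProj.psd {P : Matrix ι ι ℂ} (h : IsProj P) : P.PosSemidef := by
  have := posSemidef_conjTranspose_mul_self P
  rwa [h.herm, h.idem] at this

omit [DecidableEq ι] in
lemma IsProj.hs_eq {P Q : Matrix ι ι ℂ} (hP : IsProj P) (hQ : IsProj Q) :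
    hs (P * Q) = tr (P * Q) := by
  unfold hs
  rw [conjTranspose_mul, hP.herm, hQ.herm]
  have : Q * P * (P * Q) = Q * (P * Q) := by
    rw [Matrix.mul_assoc, ← Matrix.mul_assoc P P Q, hP.idem]
  rw [this, tr_mul_comm, Matrix.mul_assoc, hQ.idem]

lemma IsProj.tr_nonneg {P Q : Matrix ι ι ℂ} (hP : IsProj P) (hQ : IsProj Q) :
    0 ≤ tr (P * Q) := tr_mul_nonneg hP.psd hQ.psd

omit [DecidableEq ι] in
/-- `Q ≤ Q'` for projections -/
lemma IsProj.comm_of_le {Q Q' : Matrix ι ι ℂ} (hQ : IsProj Q) (hQ' : IsProj Q')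
    (h : Q' * Q = Q) : Q * Q' = Q := by
  have := congrArg conjTranspose h
  rwa [conjTranspose_mul, hQ.herm, hQ'.herm] at this

omit [DecidableEq ι] in
lemma IsProj.sub {Q Q' : Matrix ι ι ℂ} (hQ : IsProj Q) (hQ' : IsProj Q')
    (h : Q' * Q = Q) : IsProj (Q' - Q) := by
  refine ⟨by rw [conjTranspose_sub, hQ.herm, hQ'.herm], ?_⟩
  have h2 := hQ.comm_of_le hQ' h
  calc (Q' - Q) * (Q' - Q) = Q' * Q' - Q' * Q - Q * Q' + Q * Q := by noncomm_ring
    _ = Q' - Q := by rw [hQ'.idem, h, h2, hQ.idem]; abel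

omit [DecidableEq ι] in
lemma IsProj.add {Q Q' : Matrix ι ι ℂ} (hQ : IsProj Q) (hQ' : IsProj Q')
    (h : Q' * Q = 0) : IsProj (Q' + Q) := by
  refine ⟨by rw [conjTranspose_add, hQ.herm, hQ'.herm], ?_⟩
  have h2 : Q * Q' = 0 := by
    have := congrArg conjTranspose h
    rwa [conjTranspose_mul, hQ.herm, hQ'.herm, conjTranspose_zero] at this
  calc (Q' + Q) * (Q' + Q) = Q' * Q' + Q' * Q + Q * Q' + Q * Q := by noncomm_ring
    _ = Q' + Q := by rw [hQ'.idem, h, h2, hQ.idem]; abel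

lemma IsProj.tr_mono {P Q Q' : Matrix ι ι ℂ} (hP : IsProj P) (hQ : IsProj Q) (hQ' : IsProj Q')
    (h : Q' * Q = Q) : tr (P * Q) ≤ tr (P * Q') := by
  have h1 := hP.tr_nonneg (hQ.sub hQ' h)
  rw [mul_sub, tr_sub] at h1
  linarith

lemma IsProj.tr_mul_one_sub {P : Matrix ι ι ℂ} (Q : Matrix ι ι ℂ) :
    tr (P * (1 - Q)) = tr P - tr (P * Q) := by
  rw [mul_sub, tr_sub, mul_one]

/-- multiplication by a projection on the right does not increase the Hilbert-Schmidt norm -/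
lemma hs_mul_le {X P : Matrix ι ι ℂ} (hP : IsProj P) : hs (X * P) ≤ hs X := by
  unfold hs
  have h1 : tr ((X * P)ᴴ * (X * P)) = tr (Xᴴ * X * P) := by
    rw [conjTranspose_mul, hP.herm, Matrix.mul_assoc, tr_mul_comm, Matrix.mul_assoc, Matrix.mul_assoc,
      hP.idem, ← Matrix.mul_assoc]
  rw [h1]
  have h2 := tr_mul_nonneg (posSemidef_conjTranspose_mul_self X) hP.one_sub.psd
  rw [mul_sub, mul_one, tr_sub] at h2
  linarith

omit [DecidableEq ι] in
lemma hs_conjTranspose (X : Matrix ι ι ℂ) : hs Xᴴ = hs X := by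
  unfold hs
  rw [conjTranspose_conjTranspose, tr_mul_comm]

/-- multiplication by a projection on the left does not increase the Hilbert-Schmidt norm -/
lemma hs_mul_le' {X P : Matrix ι ι ℂ} (hP : IsProj P) : hs (P * X) ≤ hs X := by
  rw [← hs_conjTranspose, conjTranspose_mul, hP.herm, ← hs_conjTranspose X]
  exact hs_mul_le hP

/-- the overlap of `P` and `X` through a third projection `Y` -/
lemma IsProj.overlap {P X Y : Matrix ι ι ℂ} (hP : IsProj P) (hX : IsProj X) (hY : IsProj Y) :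
    tr (P * X) ≤ 2 * tr (P * Y) + 2 * tr (X * (1 - Y)) := by
  rw [← hP.hs_eq hX]
  have e : P * X = P * Y * X + P * ((1 - Y) * X) := by noncomm_ring
  rw [e]
  refine (hs_add_le _ _).trans ?_
  have h1 : hs (P * Y * X) ≤ tr (P * Y) := by
    rw [← hP.hs_eq hY]
    exact hs_mul_le hX
  have h2 : hs (P * ((1 - Y) * X)) ≤ tr (X * (1 - Y)) := by
    rw [tr_mul_comm, ← hY.one_sub.hs_eq hX]
    exact hs_mul_le' hP
  linarith

/-- `tr (P Q) ≤ 2 (tr (P (1 - T)) + tr (Q T))` -/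
lemma IsProj.test {P Q T : Matrix ι ι ℂ} (hP : IsProj P) (hQ : IsProj Q) (hT : IsProj T) :
    tr (P * Q) ≤ 2 * (tr (P * (1 - T)) + tr (Q * T)) := by
  have := hP.overlap hQ hT.one_sub
  rw [sub_sub_cancel] at this
  linarith

end Pool.Agent.U324.MTI
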