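import Pool.Agent.U324.MTI.LevelC

set_option autoImplicit false

open Matrix Finset
open scoped ComplexOrder MatrixOrder

namespace Pool.Agent.U324.MTI

variable {ι : Type*} [Fintype ι] [DecidableEq ι]

/-! ### the scales -/

lemma scale_le (t : ℕ → ℝ) (ht : ∀ k, 0 ≤ t k) {x : ℝ}
    (hx : 0 ≤ x) (N : ℕ) :
    ∑ k ∈ range N, (t k - t (k + 1)) * (if t k < x then (1 : ℝ) else 0) ≤ x := by
  have key : ∑ k ∈ range N, (t k - t (k + 1)) * (if t k < x then (1 : ℝ) else 0)
      ≤ max 0 (x - t N) := by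
    induction N with
    | zero => simp
    | succ N ih =>
      rw [sum_range_succ]
      by_cases h : t N < x
      · rw [if_pos h, mul_one]
        rw [max_eq_right (by linarith)] at ih
        exact le_max_of_le_right (by linarith)
      · rw [if_neg h, mul_zero, add_zero]
        push Not at h
        rw [max_eq_left (by linarith)] at ih
        exact le_max_of_le_left ih
  refine key.trans (max_le hx ?_)
  linarith [ht N]

/-- every number in `(t N, t 0]` is at most its upper level -/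
lemma le_scale (t : ℕ → ℝ) (ht : ∀ k, 0 ≤ t k) (hanti : ∀ k, t (k + 1) ≤ t k) {x : ℝ}
    (hx : x ≤ t 0) (N : ℕ) (hN : t N < x) :
    x ≤ ∑ k ∈ range N, t k * ((if t (k + 1) < x then (1 : ℝ) else 0) -
      (if t k < x then (1 : ℝ) else 0)) := by
  classical
  have hex : ∃ k, t k < x := ⟨N, hN⟩
  set k0 := Nat.find hex with hk0
  have h1 : t k0 < x := Nat.find_spec hex
  have hk0N : k0 ≤ N := Nat.find_min' hex hN
  have hk0pos : k0 ≠ 0 := by
    intro h
    rw [h] at h1
    linarith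
  obtain ⟨m, hm⟩ := Nat.exists_eq_succ_of_ne_zero hk0pos
  have h2 : x ≤ t m := by
    have := Nat.find_min hex (m := m) (by rw [← hk0, hm]; exact Nat.lt_succ_self m)
    push Not at this
    exact this
  have hterm : ∀ k, 0 ≤ t k * ((if t (k + 1) < x then (1 : ℝ) else 0) -
      (if t k < x then (1 : ℝ) else 0)) := by
    intro k
    refine mul_nonneg (ht k) ?_
    split_ifs with h3 h4 h4
    · simp
    · simp
    · exact absurd (lt_of_le_of_lt (hanti k) h4) h3
    · simp
  have hmN : m < N := by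
    have : m + 1 ≤ N := by rw [← Nat.succ_eq_add_one, ← hm]; exact hk0N
    omega
  have := Finset.single_le_sum (f := fun k => t k * ((if t (k + 1) < x then (1 : ℝ) else 0) -
      (if t k < x then (1 : ℝ) else 0))) (s := range N) (fun k _ => hterm k) (mem_range.2 hmN)
  have h3 : t (m + 1) < x := by
    rw [← Nat.succ_eq_add_one, ← hm]; exact h1
  simp only [if_pos h3, if_neg (not_lt.2 h2), sub_zero, mul_one] at this
  exact h2.trans this

/-! ### the layers of a positive matrix -/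

/-- sum of the layers -/
lemma layers_eq (A : Matrix ι ι ℂ) (w t : ℕ → ℝ) (N : ℕ) :
    ∑ k ∈ range N, w k • above A (t k) =
      cfc (fun x : ℝ => ∑ k ∈ range N, w k * (if t k < x then (1 : ℝ) else 0)) A := by
  unfold above
  have h1 : ∀ k ∈ range N, w k • cfc (fun x : ℝ => if t k < x then (1 : ℝ) else 0) A =
      cfc (fun x : ℝ => w k * (if t k < x then (1 : ℝ) else 0)) A := by
    intro k _
    rw [cfc_const_mul (w k) _ A (contOn _ _)]
  rw [sum_congr rfl h1, ← cfc_sum _ A (range N) (fun k _ => contOn _ _)]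
  congr 1
  funext x
  simp

lemma layers_le {A : Matrix ι ι ℂ} (hA : A.PosSemidef) (t : ℕ → ℝ) (ht : ∀ k, 0 ≤ t k)
    (N : ℕ) :
    ∑ k ∈ range N, (t k - t (k + 1)) • above A (t k) ≤ A := by
  have hA' : IsSelfAdjoint A := hA.1
  rw [layers_eq A (fun k => t k - t (k + 1)) t N]
  conv_rhs => rw [← cfc_id' ℝ A]
  refine cfc_mono ?_ (contOn _ _) (contOn _ _)
  intro x hx
  have hx0 : 0 ≤ x := spectrum_nonneg_of_nonneg hA.nonneg hx
  exact scale_le t ht hx0 N

lemma le_layers {A : Matrix ι ι ℂ} (hA : A.PosSemidef) (t : ℕ → ℝ) (ht : ∀ k, 0 ≤ t k)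
    (hanti : ∀ k, t (k + 1) ≤ t k) (N : ℕ) (h1 : ∀ x ∈ spectrum ℝ A, x ≤ t 0)
    (h2 : ∀ x ∈ spectrum ℝ A, 0 < x → t N < x) :
    A ≤ ∑ k ∈ range N, t k • (above A (t (k + 1)) - above A (t k)) := by
  have hA' : IsSelfAdjoint A := hA.1
  have e : ∑ k ∈ range N, t k • (above A (t (k + 1)) - above A (t k)) =
      cfc (fun x : ℝ => ∑ k ∈ range N, t k * ((if t (k + 1) < x then (1 : ℝ) else 0) -
      (if t k < x then (1 : ℝ) else 0))) A := by
    unfold above
    have h1 : ∀ k ∈ range N, t k • (cfc (fun x : ℝ => if t (k + 1) < x then (1 : ℝ) else 0) A -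
        cfc (fun x : ℝ => if t k < x then (1 : ℝ) else 0) A) =
        cfc (fun x : ℝ => t k * ((if t (k + 1) < x then (1 : ℝ) else 0) -
          (if t k < x then (1 : ℝ) else 0))) A := by
      intro k _
      rw [cfc_const_mul (t k) _ A (contOn _ _), cfc_sub _ _ A (contOn _ _) (contOn _ _)]
    rw [sum_congr rfl h1, ← cfc_sum _ A (range N) (fun k _ => contOn _ _)]
    congr 1
    funext x
    simp
  rw [e]
  conv_lhs => rw [← cfc_id' ℝ A]
  refine cfc_mono ?_ (contOn _ _) (contOn _ _)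
  intro x hx
  have hx0 : 0 ≤ x := spectrum_nonneg_of_nonneg hA.nonneg hx
  rcases eq_or_lt_of_le hx0 with h | h
  · rw [← h]
    refine sum_nonneg fun k _ => mul_nonneg (ht k) ?_
    simp [not_lt.2 (ht _)]
  · exact le_scale t ht hanti (h1 x hx) N (h2 x hx h)

/-! ### trace norm -/

/-- trace norm `‖X‖₁ = Tr √(X* X)` -/
noncomputable def traceNorm (X : Matrix ι ι ℂ) : ℝ := (CFC.sqrt (Xᴴ * X)).trace.re

lemma exists_test {H : Matrix ι ι ℂ} (hH : H.IsHermitian) :
    ∃ T : Matrix ι ι ℂ, IsProj T ∧ traceNorm H = 2 * tr (H * T) - tr H := by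
  have hH' : IsSelfAdjoint H := hH
  refine ⟨above H 0, above_proj H 0, ?_⟩
  have h1 : CFC.sqrt (Hᴴ * H) = CFC.abs H := rfl
  unfold traceNorm
  rw [h1, CFC.abs_eq_cfc_norm H]
  have h2 : H * above H 0 = cfc (fun x : ℝ => x * (if (0 : ℝ) < x then (1 : ℝ) else 0)) H := by
    have : H * above H 0 = cfc (fun x : ℝ => x) H * above H 0 := by rw [cfc_id' ℝ H]
    rw [this]
    unfold above
    rw [← cfc_mul _ _ H (contOn _ _) (contOn _ _)]
  have h3 : cfc (fun x : ℝ => ‖x‖) H = (2 : ℝ) • (H * above H 0) - H := by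
    rw [h2]
    conv_rhs => rw [← cfc_const_mul _ _ H (contOn _ _)]
    conv_rhs =>
      arg 2
      rw [← cfc_id' ℝ H]
    rw [← cfc_sub _ _ H (contOn _ _) (contOn _ _)]
    congr 1
    funext x
    rw [Real.norm_eq_abs]
    split_ifs with h
    · rw [abs_of_pos h]; ring
    · push Not at h
      rw [abs_of_nonpos h]; ring
  have h4 : tr (cfc (fun x : ℝ => ‖x‖) H) = 2 * tr (H * above H 0) - tr H := by
    rw [h3, tr_sub, tr_smul]
  exact h4

lemma pair_bound {A B : Matrix ι ι ℂ} (hA : A.PosSemidef) (hB : B.PosSemidef) (t : ℕ → ℝ)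
    (ht : ∀ k, 0 ≤ t k) (hanti : ∀ k, t (k + 1) ≤ t k) (N : ℕ) :
    ∑ k ∈ range N, (t k - t (k + 1)) * tr (above A (t k) * above B (t k)) ≤
      tr (A + B) - traceNorm (A - B) := by
  obtain ⟨T, hT, h⟩ := exists_test (hA.1.sub hB.1)
  rw [h]
  have h1 := tr_mul_mono (layers_le hA t ht N) hT.one_sub.psd
  have h2 := tr_mul_mono (layers_le hB t ht N) hT.psd
  rw [sum_mul, tr_sum] at h1 h2
  have h3 : ∀ k ∈ range N, (t k - t (k + 1)) * tr (above A (t k) * above B (t k)) ≤
      2 * (tr ((t k - t (k + 1)) • above A (t k) * (1 - T)) +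
        tr ((t k - t (k + 1)) • above B (t k) * T)) := by
    intro k _
    rw [smul_mul_assoc, tr_smul, smul_mul_assoc, tr_smul]
    have := (above_proj A (t k)).test (above_proj B (t k)) hT
    have hw : 0 ≤ t k - t (k + 1) := by linarith [hanti k]
    nlinarith [mul_le_mul_of_nonneg_left this hw]
  refine (sum_le_sum h3).trans ?_
  rw [← mul_sum, sum_add_distrib, tr_add, sub_mul, tr_sub, tr_sub]
  rw [IsProj.tr_mul_one_sub] at h1
  linarith

/-! ### the lower bound of `Tr √(∑ A_j²)` -/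

lemma sqrt_eq {S : Matrix ι ι ℂ} (hS : S.PosSemidef) : CFC.sqrt S = cfc Real.sqrt S := by
  have hS' : IsSelfAdjoint S := hS.1
  have hb : 0 ≤ cfc Real.sqrt S := cfc_nonneg fun x _ => Real.sqrt_nonneg x
  rw [CFC.sqrt_eq_iff S _ hS.nonneg hb, ← cfc_mul _ _ S (contOn _ _) (contOn _ _)]
  conv_rhs => rw [← cfc_id' ℝ S]
  refine cfc_congr fun x hx => ?_
  exact Real.mul_self_sqrt (spectrum_nonneg_of_nonneg hS.nonneg hx)

lemma sqrt_bound {n : ℕ} (A E : Fin n → Matrix ι ι ℂ) (hA : ∀ i, (A i).IsHermitian)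
    (hE : ∀ i, (E i).PosSemidef) (hE1 : ∑ i, E i ≤ 1) :
    ∑ i, tr (A i * E i) ≤ tr (CFC.sqrt (∑ i, A i * A i)) := by
  set S := ∑ i, A i * A i with hS
  have hSpsd : S.PosSemidef := by
    rw [hS]
    refine posSemidef_sum _ fun i _ => ?_
    have := posSemidef_conjTranspose_mul_self (A i)
    rwa [(hA i).eq] at this
  set U : Matrix ι ι ℂ := (hSpsd.1.eigenvectorUnitary : Matrix ι ι ℂ) with hU
  have hUU : U * Uᴴ = 1 := by
    have := (Matrix.mem_unitaryGroup_iff).1 hSpsd.1.eigenvectorUnitary.2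
    exact this
  have hUU' : Uᴴ * U = 1 := by
    have := (Matrix.mem_unitaryGroup_iff').1 hSpsd.1.eigenvectorUnitary.2
    exact this
  have htr : ∀ X : Matrix ι ι ℂ, tr X = ∑ k, ((Uᴴ * X * U) k k).re := by
    intro X
    have : tr X = tr (Uᴴ * X * U) := by
      rw [Matrix.mul_assoc, tr_mul_comm, Matrix.mul_assoc, hUU, mul_one]
    rw [this]
    simp [tr, Matrix.trace]
  -- diagonalisation
  have hdiag : ∀ f : ℝ → ℝ, Uᴴ * cfc f S * U = diagonal (fun k => ((f (hSpsd.1.eigenvalues k) : ℝ) : ℂ)) := by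
    intro f
    rw [hSpsd.1.cfc_eq f]
    unfold Matrix.IsHermitian.cfc
    rw [Unitary.conjStarAlgAut_apply]
    have e1 : (star hSpsd.1.eigenvectorUnitary : Matrix ι ι ℂ) = Uᴴ := rfl
    have e2 : (hSpsd.1.eigenvectorUnitary : Matrix ι ι ℂ) = U := rfl
    rw [e2]
    calc Uᴴ * (U * diagonal (RCLike.ofReal ∘ f ∘ hSpsd.1.eigenvalues) * Uᴴ) * U
        = (Uᴴ * U) * diagonal (RCLike.ofReal ∘ f ∘ hSpsd.1.eigenvalues) * (Uᴴ * U) := by
          noncomm_ring
      _ = _ := by
          rw [hUU', one_mul, mul_one]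
          rfl
  have hsqrt : tr (CFC.sqrt S) = ∑ k, Real.sqrt (hSpsd.1.eigenvalues k) := by
    rw [sqrt_eq hSpsd, htr, hdiag]
    simp
  rw [hsqrt, sum_congr rfl fun i _ => htr (A i * E i), sum_comm]
  refine sum_le_sum fun k _ => ?_
  -- Cauchy-Schwarz
  have hdiagS : (Uᴴ * S * U) k k = ((hSpsd.1.eigenvalues k : ℝ) : ℂ) := by
    have h := hdiag (fun x => x)
    have hS' : IsSelfAdjoint S := hSpsd.1
    rw [cfc_id' ℝ S] at h
    rw [h]
    simp
  have h1 : ∀ i, ((Uᴴ * (A i * E i) * U) k k).re ≤ ∑ l, ‖(A i * U) l k‖ * ‖(E i * U) l k‖ := by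
    intro i
    have e : Uᴴ * (A i * E i) * U = (A i * U)ᴴ * (E i * U) := by
      rw [conjTranspose_mul, (hA i).eq]; noncomm_ring
    rw [e, Matrix.mul_apply, Complex.re_sum]
    refine sum_le_sum fun l _ => ?_
    rw [conjTranspose_apply]
    refine (Complex.re_le_norm _).trans ?_
    rw [norm_mul, norm_star]
  have h2 : ∑ i, ∑ l, ‖(A i * U) l k‖ ^ 2 = hSpsd.1.eigenvalues k := by
    have e : ∑ i, ∑ l, ‖(A i * U) l k‖ ^ 2 = ((Uᴴ * S * U) k k).re := by
      rw [hS, mul_sum, sum_mul, Matrix.sum_apply, Complex.re_sum]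
      refine sum_congr rfl fun i _ => ?_
      have e : Uᴴ * (A i * A i) * U = (A i * U)ᴴ * (A i * U) := by
        rw [conjTranspose_mul, (hA i).eq]; noncomm_ring
      rw [e, Matrix.mul_apply, Complex.re_sum]
      refine sum_congr rfl fun l _ => ?_
      rw [conjTranspose_apply, Complex.star_def, Complex.conj_mul']
      norm_cast
    rw [e, hdiagS, Complex.ofReal_re]
  have h3 : ∑ i, ∑ l, ‖(E i * U) l k‖ ^ 2 ≤ 1 := by
    have hsq : ∀ i, E i * E i ≤ E i := by
      intro i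
      refine sq_le (hE i) (le_trans ?_ hE1)
      rw [Matrix.le_iff]
      have : ∑ j, E j - E i = ∑ j ∈ univ.erase i, E j := by
        rw [← Finset.add_sum_erase univ _ (mem_univ i)]; abel
      rw [this]
      exact posSemidef_sum _ fun i _ => hE i
    have hsum1 : ∑ i, E i * E i ≤ 1 := (sum_le_sum fun i _ => hsq i).trans hE1
    have e : ∑ i, ∑ l, ‖(E i * U) l k‖ ^ 2 = ((Uᴴ * (∑ i, E i * E i) * U) k k).re := by
      rw [mul_sum, sum_mul, Matrix.sum_apply, Complex.re_sum]
      refine sum_congr rfl fun i _ => ?_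
      have e : Uᴴ * (E i * E i) * U = (E i * U)ᴴ * (E i * U) := by
        rw [conjTranspose_mul, (hE i).1.eq]
        noncomm_ring
      rw [e, Matrix.mul_apply, Complex.re_sum]
      refine sum_congr rfl fun l _ => ?_
      rw [conjTranspose_apply, Complex.star_def, Complex.conj_mul']
      norm_cast
    rw [e]
    have h4 : (Uᴴ * (1 - ∑ i, E i * E i) * U).PosSemidef :=
      (show (1 - ∑ i, E i * E i).PosSemidef from hsum1).conjTranspose_mul_mul_same U
    have h5 := h4.diag_nonneg (i := k)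
    rw [mul_sub, mul_one, sub_mul, hUU', Matrix.sub_apply, Matrix.one_apply_eq] at h5
    have h6 := (Complex.le_def.1 h5).1
    simp only [Complex.zero_re, Complex.sub_re, Complex.one_re] at h6
    linarith
  refine (sum_le_sum fun i _ => h1 i).trans ?_
  rw [← Finset.sum_product', Finset.univ_product_univ]
  rw [← Finset.sum_product', Finset.univ_product_univ] at h2 h3
  refine (Real.sum_mul_le_sqrt_mul_sqrt univ (fun p : Fin n × ι => ‖(A p.1 * U) p.2 k‖)
    (fun p => ‖(E p.1 * U) p.2 k‖)).trans ?_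
  rw [h2]
  calc Real.sqrt (hSpsd.1.eigenvalues k) * Real.sqrt (∑ p : Fin n × ι, ‖(E p.1 * U) p.2 k‖ ^ 2)
      ≤ Real.sqrt (hSpsd.1.eigenvalues k) * 1 := by
        refine mul_le_mul_of_nonneg_left ?_ (Real.sqrt_nonneg _)
        rw [Real.sqrt_le_one]
        exact h3
    _ = _ := mul_one _

end Pool.Agent.U324.MTI
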