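import Pool.Agent.U324.MTI.Spec

set_option autoImplicit false

open Matrix Finset
open scoped ComplexOrder MatrixOrder

namespace Pool.Agent.U324.MTI

variable {ι : Type*} [Fintype ι] [DecidableEq ι]

/-! ### generalities -/

/-- total overlap of different members of a family -/
noncomputable def cross {n : ℕ} (U : Fin n → Matrix ι ι ℂ) : ℝ :=
  ∑ i, ∑ j, if i = j then 0 else tr (U i * U j)

lemma cross_nonneg {n : ℕ} {U : Fin n → Matrix ι ι ℂ} (hU : ∀ i, IsProj (U i)) : 0 ≤ cross U := by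
  refine sum_nonneg fun i _ => sum_nonneg fun j _ => ?_
  split_ifs
  · exact le_rfl
  · exact (hU i).tr_nonneg (hU j)

lemma cross_mono {n : ℕ} {U V : Fin n → Matrix ι ι ℂ} (hU : ∀ i, IsProj (U i))
    (hV : ∀ i, IsProj (V i)) (h : ∀ i, V i * U i = U i) : cross U ≤ cross V := by
  refine sum_le_sum fun i _ => sum_le_sum fun j _ => ?_
  split_ifs
  · exact le_rfl
  · have h1 := (hU i).tr_mono (hU j) (hV j) (h j)
    have h2 := (hV j).tr_mono (hU i) (hV i) (h i)
    rw [tr_mul_comm] at h2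
    rw [tr_mul_comm (V j)] at h2
    linarith

lemma tr_mul_mono {A B X : Matrix ι ι ℂ} (h : A ≤ B) (hX : X.PosSemidef) :
    tr (A * X) ≤ tr (B * X) := by
  have h1 : (B - A).PosSemidef := h
  have := tr_mul_nonneg h1 hX
  rw [sub_mul, tr_sub] at this
  linarith

lemma tr_mul_mono' {A B X : Matrix ι ι ℂ} (h : A ≤ B) (hX : X.PosSemidef) :
    tr (X * A) ≤ tr (X * B) := by
  rw [tr_mul_comm X, tr_mul_comm X]; exact tr_mul_mono h hX

omit [DecidableEq ι] in
lemma tr_mono {A B : Matrix ι ι ℂ} (h : A ≤ B) : tr A ≤ tr B := by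
  have h1 : (B - A).PosSemidef := h
  have := tr_nonneg h1
  rw [tr_sub] at this
  linarith

/-- `X² ≤ X` for `0 ≤ X ≤ 1` -/
lemma sq_le {X : Matrix ι ι ℂ} (h0 : X.PosSemidef) (h1 : X ≤ 1) : X * X ≤ X := by
  obtain ⟨B, hB⟩ := CStarAlgebra.nonneg_iff_eq_star_mul_self.mp h0.nonneg
  set C := CFC.sqrt X with hC
  have hCC : C * C = X := CFC.sqrt_mul_sqrt_self X h0.nonneg
  have hCh : Cᴴ = C := (CFC.sqrt_nonneg X).posSemidef.1
  have h2 : (Cᴴ * (1 - X) * C).PosSemidef :=
    (show (1 - X).PosSemidef from h1).conjTranspose_mul_mul_same C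
  have h3 : Cᴴ * (1 - X) * C = X - X * X := by
    rw [hCh, mul_sub, sub_mul, mul_one, hCC]
    congr 1
    rw [← hCC]
    noncomm_ring
  rw [h3] at h2
  exact h2

/-! ### the support projection -/

/-- support projection -/
noncomputable def supp (S : Matrix ι ι ℂ) : Matrix ι ι ℂ :=
  cfc (fun x : ℝ => if x = 0 then (0 : ℝ) else 1) S

lemma supp_proj (S : Matrix ι ι ℂ) : IsProj (supp S) := by
  refine cfc_proj S _ fun x => ?_
  split_ifs <;> simp

lemma supp_eq (S : Matrix ι ι ℂ) (hS : S.IsHermitian) : supp S = 1 - ker S := by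
  have hS' : IsSelfAdjoint S := hS
  have h2 : (1 : Matrix ι ι ℂ) = cfc (fun _ : ℝ => (1 : ℝ)) S := (cfc_const_one ℝ S).symm
  unfold supp ker
  rw [h2, ← cfc_sub _ _ S (contOn _ _) (contOn _ _)]
  congr 1
  funext x
  split_ifs <;> simp

lemma mul_supp {S : Matrix ι ι ℂ} (hS : S.IsHermitian) : S * supp S = S := by
  rw [supp_eq S hS, mul_sub, mul_one, mul_ker hS, sub_zero]

lemma supp_mul {S : Matrix ι ι ℂ} (hS : S.IsHermitian) : supp S * S = S := by
  have := congrArg conjTranspose (mul_supp hS)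
  rwa [conjTranspose_mul, (supp_proj S).herm, hS.eq] at this

lemma exists_supp {S : Matrix ι ι ℂ} (hS : S.IsHermitian) :
    ∃ B : Matrix ι ι ℂ, supp S = B * S := by
  rw [supp_eq S hS]; exact exists_one_sub_ker hS

/-- a positive matrix below `S` vanishes off the support of `S` -/
lemma mul_supp_of_le {P S : Matrix ι ι ℂ} (hP : P.PosSemidef) (hS : S.PosSemidef) (h : P ≤ S) :
    P * supp S = P := by
  have hF := (supp_proj S).one_sub
  have h1 : ((1 - supp S)ᴴ * (S - P) * (1 - supp S)).PosSemidef :=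
    (show (S - P).PosSemidef from h).conjTranspose_mul_mul_same _
  have h2 : ((1 - supp S)ᴴ * P * (1 - supp S)).PosSemidef := hP.conjTranspose_mul_mul_same _
  have h3 : S * (1 - supp S) = 0 := by rw [mul_sub, mul_one, mul_supp hS.1, sub_self]
  have h4 : (1 - supp S)ᴴ * (S - P) * (1 - supp S) = -((1 - supp S)ᴴ * P * (1 - supp S)) := by
    generalize (1 - supp S) = Q at h3
    have : Qᴴ * (S - P) * Q = Qᴴ * (S * Q) - Qᴴ * P * Q := by noncomm_ring
    rw [this, h3, mul_zero, zero_sub]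
  rw [h4] at h1
  have h5 : (1 - supp S)ᴴ * P * (1 - supp S) = 0 := by
    have h6 : (1 - supp S)ᴴ * P * (1 - supp S) ≤ 0 := by
      rw [Matrix.le_iff, zero_sub]; exact h1
    exact le_antisymm h6 h2.nonneg
  obtain ⟨C, rfl⟩ := CStarAlgebra.nonneg_iff_eq_star_mul_self.mp hP.nonneg
  have h6 : (C * (1 - supp S))ᴴ * (C * (1 - supp S)) = 0 := by
    rw [conjTranspose_mul]
    have : (1 - supp S)ᴴ * (star C * C) * (1 - supp S) = (1 - supp S)ᴴ * Cᴴ * (C * (1 - supp S)) := by
      rw [Matrix.star_eq_conjTranspose]; noncomm_ring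
    rw [← this]; exact h5
  have h7 := Matrix.conjTranspose_mul_self_eq_zero.1 h6
  rw [mul_sub, mul_one, sub_eq_zero] at h7
  rw [Matrix.mul_assoc, ← h7]

lemma supp_mono {S S' : Matrix ι ι ℂ} (hS : S.PosSemidef) (hS' : S'.PosSemidef) (h : S ≤ S') :
    supp S' * supp S = supp S := by
  have h1 := mul_supp_of_le hS hS' h
  obtain ⟨B, hB⟩ := exists_supp hS.1
  have h2 : supp S * supp S' = supp S := by
    conv_lhs => rw [hB]
    rw [Matrix.mul_assoc, h1, ← hB]
  have := congrArg conjTranspose h2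
  rwa [conjTranspose_mul, (supp_proj S).herm, (supp_proj S').herm] at this

omit [DecidableEq ι] in
lemma rank_sum_le {n : ℕ} (P : Fin n → Matrix ι ι ℂ) : (∑ i, P i).rank ≤ ∑ i, (P i).rank := by
  induction n with
  | zero => simp
  | succ n ih =>
    rw [Fin.sum_univ_succ, Fin.sum_univ_succ]
    exact (rank_add_le' _ _).trans (Nat.add_le_add_left (ih _) _)

lemma tr_supp_le {n : ℕ} (P : Fin n → Matrix ι ι ℂ) (hP : ∀ i, IsProj (P i)) :
    tr (supp (∑ i, P i)) ≤ tr (∑ i, P i) := by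
  have hpsd : (∑ i, P i).PosSemidef := posSemidef_sum _ fun i _ => (hP i).psd
  obtain ⟨B, hB⟩ := exists_supp hpsd.1
  have h1 : (supp (∑ i, P i)).rank ≤ ∑ i, (P i).rank := by
    rw [hB]; exact (Matrix.rank_mul_le_right _ _).trans (rank_sum_le P)
  rw [(supp_proj _).tr_eq_rank, tr_sum, sum_congr rfl fun i _ => (hP i).tr_eq_rank]
  exact_mod_cast h1

/-- Gram matrix estimate -/
lemma gram {n : ℕ} (P : Fin n → Matrix ι ι ℂ) (hP : ∀ i, IsProj (P i)) :
    tr ((∑ i, P i - supp (∑ i, P i)) * (∑ i, P i - supp (∑ i, P i))) ≤ cross P := by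
  set S := ∑ i, P i with hS
  have hpsd : S.PosSemidef := posSemidef_sum _ fun i _ => (hP i).psd
  have h1 := tr_supp_le P hP
  rw [← hS] at h1
  have h2 : (S - supp S) * (S - supp S) = S * S - S - S + supp S := by
    rw [sub_mul, mul_sub, mul_sub, mul_supp hpsd.1, supp_mul hpsd.1, (supp_proj S).idem]
    abel
  have h3 : tr (S * S) = cross P + tr S := by
    rw [hS, Finset.sum_mul_sum, tr_sum, tr_sum]
    unfold cross
    rw [← sum_add_distrib]
    refine sum_congr rfl fun i _ => ?_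
    rw [tr_sum, ← Finset.add_sum_erase univ _ (mem_univ i), (hP i).idem]
    have : (∑ j, if i = j then 0 else tr (P i * P j)) = ∑ j ∈ univ.erase i, tr (P i * P j) := by
      rw [← Finset.add_sum_erase univ _ (mem_univ i), if_pos rfl, zero_add]
      refine sum_congr rfl fun j hj => ?_
      rw [if_neg (Finset.ne_of_mem_erase hj).symm]
    rw [this]; ring
  rw [h2, tr_add, tr_sub, tr_sub, h3]
  linarith

lemma cfc_le {S : Matrix ι ι ℂ} (hS : S.PosSemidef) (f g : ℝ → ℝ) (h : ∀ x, 0 ≤ x → f x ≤ g x) :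
    cfc f S ≤ cfc g S :=
  cfc_mono (fun x hx => h x (spectrum_nonneg_of_nonneg hS.nonneg hx)) (contOn _ _) (contOn _ _)

lemma cfc_self {S : Matrix ι ι ℂ} (hS : S.PosSemidef) : cfc (fun x : ℝ => x) S = S := by
  have hS' : IsSelfAdjoint S := hS.1
  exact cfc_id' ℝ S

/-- `(S - supp S)²` -/
lemma cfc_dev {S : Matrix ι ι ℂ} (hS : S.PosSemidef) :
    cfc (fun x : ℝ => (x - if x = 0 then 0 else 1) * (x - if x = 0 then 0 else 1)) S =
      (S - supp S) * (S - supp S) := by
  rw [cfc_mul _ _ S (contOn _ _) (contOn _ _), cfc_sub _ _ S (contOn _ _) (contOn _ _), cfc_self hS]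
  rfl

end Pool.Agent.U324.MTI
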