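import Pool.Agent.U324.MTI.Level

set_option autoImplicit false

open Matrix Finset
open scoped ComplexOrder MatrixOrder

namespace Pool.Agent.U324.MTI

variable {ι : Type*} [Fintype ι] [DecidableEq ι]

omit [DecidableEq ι] in
lemma sub_proj {n : ℕ} {P0 P1 : Fin n → Matrix ι ι ℂ} (hP0 : ∀ i, IsProj (P0 i))
    (hP1 : ∀ i, IsProj (P1 i)) (hmono : ∀ i, P1 i * P0 i = P0 i) (i : Fin n) :
    IsProj (P1 i - P0 i) := (hP0 i).sub (hP1 i) (hmono i)

/-- estimate (a): the leakage into the span of the previous levels -/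
lemma leak {n : ℕ} (P0 P1 : Fin n → Matrix ι ι ℂ) (hP0 : ∀ i, IsProj (P0 i))
    (hP1 : ∀ i, IsProj (P1 i)) (hmono : ∀ i, P1 i * P0 i = P0 i) :
    ∑ i, tr ((P1 i - P0 i) * supp (∑ j, P0 j)) ≤ 17 / 4 * cross P1 := by
  set S0 := ∑ j, P0 j with hS0
  set S1 := ∑ j, P1 j with hS1
  have h0psd : S0.PosSemidef := posSemidef_sum _ fun i _ => (hP0 i).psd
  have h1psd : S1.PosSemidef := posSemidef_sum _ fun i _ => (hP1 i).psd
  set Y := cfc (fun x : ℝ => if x = 0 then 0 else max 0 (1 - 2 * x)) S0 with hY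
  have hY0 : Y.PosSemidef := by
    have : 0 ≤ Y := cfc_nonneg fun x _ => by
      split_ifs
      · exact le_rfl
      · exact le_max_left _ _
    exact this.posSemidef
  have hY1 : Y ≤ 1 := by
    have h2 : (1 : Matrix ι ι ℂ) = cfc (fun _ : ℝ => (1 : ℝ)) S0 := by
      have hS' : IsSelfAdjoint S0 := h0psd.1
      exact (cfc_const_one ℝ S0).symm
    rw [h2]
    refine cfc_le h0psd _ _ fun x hx => ?_
    split_ifs
    · exact zero_le_one
    · exact max_le zero_le_one (by linarith)
  have hF0 : supp S0 ≤ (2 : ℝ) • S0 + Y := by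
    have e : (2 : ℝ) • S0 + Y =
        cfc (fun x : ℝ => 2 * x + if x = 0 then 0 else max 0 (1 - 2 * x)) S0 := by
      rw [cfc_add S0 _ _ (contOn _ _) (contOn _ _), cfc_const_mul _ _ S0 (contOn _ _),
        cfc_self h0psd]
    rw [e]
    refine cfc_le h0psd _ _ fun x hx => ?_
    split_ifs with h
    · simp [h]
    · have := le_max_right 0 (1 - 2 * x)
      linarith
  have hYtr : tr Y ≤ cross P1 := by
    have h1 : Y ≤ (S0 - supp S0) * (S0 - supp S0) := by
      rw [← cfc_dev h0psd]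
      refine cfc_le h0psd _ _ fun x hx => ?_
      split_ifs with h
      · simp [h]
      · refine max_le (mul_self_nonneg _) ?_
        nlinarith [mul_self_nonneg x]
    exact (tr_mono h1).trans ((gram P0 hP0).trans (cross_mono hP0 hP1 hmono))
  have hS1le : S1 ≤ (2 : ℝ) • supp S1 + (1 / 4 : ℝ) • ((S1 - supp S1) * (S1 - supp S1)) := by
    have e : (2 : ℝ) • supp S1 + (1 / 4 : ℝ) • ((S1 - supp S1) * (S1 - supp S1)) =
        cfc (fun x : ℝ => 2 * (if x = 0 then 0 else 1) +
          1 / 4 * ((x - if x = 0 then 0 else 1) * (x - if x = 0 then 0 else 1))) S1 := by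
      rw [cfc_add S1 _ _ (contOn _ _) (contOn _ _), cfc_const_mul _ _ S1 (contOn _ _),
        cfc_const_mul _ _ S1 (contOn _ _), cfc_dev h1psd]
      rfl
    conv_lhs => rw [← cfc_self h1psd]
    rw [e]
    refine cfc_le h1psd _ _ fun x hx => ?_
    split_ifs with h
    · simp [h]
    · nlinarith [mul_self_nonneg (x - 3)]
  -- first part
  have hA : ∀ i, IsProj (P1 i - P0 i) := sub_proj hP0 hP1 hmono
  have e1 : ∀ i, tr ((P1 i - P0 i) * S0) ≤ ∑ j, if i = j then 0 else tr (P1 i * P1 j) := by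
    intro i
    rw [hS0, mul_sum, tr_sum]
    refine sum_le_sum fun j _ => ?_
    by_cases hij : i = j
    · subst hij
      rw [if_pos rfl, sub_mul, hmono, (hP0 i).idem, sub_self, tr_zero]
    · rw [if_neg hij, sub_mul, tr_sub]
      have h1 := (hP0 i).tr_nonneg (hP0 j)
      have h2 := (hP1 i).tr_mono (hP0 j) (hP1 j) (hmono j)
      linarith
  have e2 : ∑ i, tr ((P1 i - P0 i) * S0) ≤ cross P1 := sum_le_sum fun i _ => e1 i
  have e3 : ∑ i, tr ((P1 i - P0 i) * Y) ≤ 9 / 4 * cross P1 := by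
    have h1 : ∑ i, tr ((P1 i - P0 i) * Y) ≤ tr (S1 * Y) := by
      rw [← tr_sum, ← sum_mul]
      refine tr_mul_mono ?_ hY0
      rw [Matrix.le_iff]
      have : S1 - ∑ i, (P1 i - P0 i) = S0 := by
        rw [sum_sub_distrib, ← hS1, ← hS0]; abel
      rw [this]; exact h0psd
    have h2 := tr_mul_mono hS1le hY0
    rw [add_mul, tr_add, smul_mul_assoc, tr_smul, smul_mul_assoc, tr_smul] at h2
    have h3 : tr (supp S1 * Y) ≤ tr Y := by
      have := tr_mul_nonneg (supp_proj S1).one_sub.psd hY0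
      rw [sub_mul, one_mul, tr_sub] at this
      linarith
    have h4 : tr ((S1 - supp S1) * (S1 - supp S1) * Y) ≤ tr ((S1 - supp S1) * (S1 - supp S1)) := by
      have hpsd : ((S1 - supp S1) * (S1 - supp S1)).PosSemidef := by
        have hh : (S1 - supp S1)ᴴ = S1 - supp S1 := by
          rw [conjTranspose_sub, h1psd.1.eq, (supp_proj S1).herm]
        have := posSemidef_conjTranspose_mul_self (S1 - supp S1)
        rwa [hh] at this
      have := tr_mul_mono' hY1 hpsd
      rwa [mul_one] at this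
    have h5 := gram P1 hP1
    rw [← hS1] at h5
    linarith
  have e4 : ∀ i, tr ((P1 i - P0 i) * supp S0) ≤ 2 * tr ((P1 i - P0 i) * S0) +
      tr ((P1 i - P0 i) * Y) := by
    intro i
    have := tr_mul_mono' hF0 (hA i).psd
    rw [mul_add, tr_add, mul_smul_comm, tr_smul] at this
    exact this
  have e5 := sum_le_sum fun i (_ : i ∈ (univ : Finset (Fin n))) => e4 i
  rw [sum_add_distrib, ← mul_sum] at e5
  linarith

/-- the inverse square root -/
noncomputable def isqrt (S : Matrix ι ι ℂ) : Matrix ι ι ℂ := cfc (fun x : ℝ => (Real.sqrt x)⁻¹) S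

lemma isqrt_herm (S : Matrix ι ι ℂ) : (isqrt S)ᴴ = isqrt S := cfc_star _ _

lemma isqrt_mul_supp (S : Matrix ι ι ℂ) : isqrt S * supp S = isqrt S := by
  unfold isqrt supp
  rw [← cfc_mul _ _ S (contOn _ _) (contOn _ _)]
  congr 1
  funext x
  split_ifs with h
  · simp [h]
  · simp

lemma isqrt_mul_isqrt {S : Matrix ι ι ℂ} (hS : S.PosSemidef) :
    isqrt S * S * isqrt S = supp S := by
  have h1 : isqrt S * S * isqrt S = isqrt S * cfc (fun x : ℝ => x) S * isqrt S := by
    rw [cfc_self hS]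
  rw [h1]
  unfold isqrt supp
  rw [← cfc_mul _ _ S (contOn _ _) (contOn _ _), ← cfc_mul _ _ S (contOn _ _) (contOn _ _)]
  refine cfc_congr fun x hx => ?_
  have hx0 : 0 ≤ x := spectrum_nonneg_of_nonneg hS.nonneg hx
  show (Real.sqrt x)⁻¹ * x * (Real.sqrt x)⁻¹ = if x = 0 then 0 else 1
  split_ifs with h
  · simp [h]
  · have h2 : Real.sqrt x ≠ 0 := (Real.sqrt_pos.2 (lt_of_le_of_ne hx0 (Ne.symm h))).ne'
    have h3 : x = Real.sqrt x * Real.sqrt x := (Real.mul_self_sqrt hx0).symm
    field_simp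
    rw [pow_two]; exact h3

lemma le_isqrt {S : Matrix ι ι ℂ} (hS : S.PosSemidef) :
    (3 / 2 : ℝ) • supp S - (1 / 2 : ℝ) • S ≤ isqrt S := by
  have e : (3 / 2 : ℝ) • supp S - (1 / 2 : ℝ) • S =
      cfc (fun x : ℝ => 3 / 2 * (if x = 0 then 0 else 1) - 1 / 2 * x) S := by
    rw [cfc_sub _ _ S (contOn _ _) (contOn _ _), cfc_const_mul _ _ S (contOn _ _),
      cfc_const_mul _ _ S (contOn _ _), cfc_self hS]
    rfl
  rw [e]
  refine cfc_le hS _ _ fun x hx => ?_
  split_ifs with h
  · simp [h]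
  · have h2 : 0 < Real.sqrt x := Real.sqrt_pos.2 (lt_of_le_of_ne hx (Ne.symm h))
    have h3 : x = Real.sqrt x * Real.sqrt x := (Real.mul_self_sqrt hx).symm
    set u := Real.sqrt x with hu
    rw [inv_eq_one_div, le_div_iff₀ h2, h3]
    nlinarith [mul_nonneg (sq_nonneg (u - 1)) (by linarith : (0 : ℝ) ≤ u + 2)]

/-- error of the square root measurement -/
lemma pgm {X S : Matrix ι ι ℂ} (hX : X.PosSemidef) (hX1 : X ≤ 1) (hS : S.PosSemidef)
    (hXS : X ≤ S) :
    tr (X * (1 - isqrt S * X * isqrt S)) ≤ tr X - tr (X * X) + tr (X * (S - X)) := by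
  set C := CFC.sqrt X with hC
  have hCC : C * C = X := CFC.sqrt_mul_sqrt_self X hX.nonneg
  have hCh : Cᴴ = C := (CFC.sqrt_nonneg X).posSemidef.1
  set P := isqrt S with hP
  have hPh : Pᴴ = P := isqrt_herm S
  have hXX : (X * X).PosSemidef := by
    have := posSemidef_conjTranspose_mul_self X
    rwa [hX.1.eq] at this
  -- (1)
  have h1 : 0 ≤ tr (X * (P * X * P)) - 2 * tr (P * (X * X)) + tr (X * X) := by
    have h := hs_nonneg (C * P * C - X)
    unfold hs at h
    have e : (C * P * C - X)ᴴ * (C * P * C - X) =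
        C * P * (C * C) * P * C - C * P * C * X - X * (C * P * C) + X * X := by
      rw [conjTranspose_sub, conjTranspose_mul, conjTranspose_mul, hCh, hPh, hX.1.eq]
      noncomm_ring
    rw [e, tr_add, tr_sub, tr_sub, hCC] at h
    have t1 : tr (C * P * X * P * C) = tr (X * (P * X * P)) := by
      rw [tr_mul_comm]
      congr 1
      rw [← hCC]; noncomm_ring
    have t2 : tr (C * P * C * X) = tr (P * (X * X)) := by
      have : C * P * C * X = C * (P * C * X) := by noncomm_ring
      rw [this, tr_mul_comm]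
      congr 1
      rw [← hCC]; noncomm_ring
    have t3 : tr (X * (C * P * C)) = tr (P * (X * X)) := by
      rw [tr_mul_comm, t2]
    rw [t1, t2, t3] at h
    linarith
  -- (2)
  have h2 := tr_mul_mono (le_isqrt hS) hXX
  rw [sub_mul, tr_sub, smul_mul_assoc, tr_smul, smul_mul_assoc, tr_smul] at h2
  have h3 : supp S * (X * X) = X * X := by
    have h := mul_supp_of_le hX hS hXS
    have h' := congrArg conjTranspose h
    rw [conjTranspose_mul, (supp_proj S).herm, hX.1.eq] at h'
    rw [← Matrix.mul_assoc, h']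
  rw [h3] at h2
  -- (3)
  have hsq := sq_le hX hX1
  have h4 : tr (S * (X * X)) ≤ tr (X * X) + tr (X * (S - X)) := by
    have e : S * (X * X) = X * (X * X) + (S - X) * (X * X) := by noncomm_ring
    rw [e, tr_add]
    have h5 : tr (X * (X * X)) ≤ tr (X * X) := tr_mul_mono' hsq hX
    have h6 : tr ((S - X) * (X * X)) ≤ tr ((S - X) * X) :=
      tr_mul_mono' hsq (show (S - X).PosSemidef from hXS)
    rw [tr_mul_comm (S - X) X] at h6
    linarith
  rw [IsProj.tr_mul_one_sub]
  linarith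

end Pool.Agent.U324.MTI
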