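import Pool.Agent.U324.MTI.LevelB

set_option autoImplicit false

open Matrix Finset
open scoped ComplexOrder MatrixOrder

namespace Pool.Agent.U324.MTI

variable {ι : Type*} [Fintype ι] [DecidableEq ι]

/-- one level: a measurement on the new part of the span which recognises the new parts of the
projections -/
lemma level {n : ℕ} (P0 P1 : Fin n → Matrix ι ι ℂ) (hP0 : ∀ i, IsProj (P0 i))
    (hP1 : ∀ i, IsProj (P1 i)) (hmono : ∀ i, P1 i * P0 i = P0 i) :
    ∃ E : Fin n → Matrix ι ι ℂ, (∀ i, (E i).PosSemidef) ∧
      ∑ i, E i ≤ supp (∑ j, P1 j) - supp (∑ j, P0 j) ∧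
      ∑ i, tr ((P1 i - P0 i) * (1 - E i)) ≤ 63 / 2 * cross P1 := by
  have hleak := leak P0 P1 hP0 hP1 hmono
  set S0 := ∑ j, P0 j with hS0
  set S1 := ∑ j, P1 j with hS1
  have h0psd : S0.PosSemidef := posSemidef_sum _ fun i _ => (hP0 i).psd
  have h1psd : S1.PosSemidef := posSemidef_sum _ fun i _ => (hP1 i).psd
  set A : Fin n → Matrix ι ι ℂ := fun i => P1 i - P0 i with hAdef
  have hA : ∀ i, IsProj (A i) := sub_proj hP0 hP1 hmono
  have hP1A : ∀ i, P1 i * A i = A i := by
    intro i
    simp only [hAdef]
    rw [mul_sub, (hP1 i).idem, hmono i]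
  have h01 : S0 ≤ S1 := by
    rw [Matrix.le_iff]
    have : S1 - S0 = ∑ i, A i := by
      simp only [hAdef]
      rw [sum_sub_distrib]
    rw [this]
    exact posSemidef_sum _ fun i _ => (hA i).psd
  set F0 := supp S0 with hF0def
  set F1 := supp S1 with hF1def
  have hF0 : IsProj F0 := supp_proj S0
  have hF1 : IsProj F1 := supp_proj S1
  have hF10 : F1 * F0 = F0 := supp_mono h0psd h1psd h01
  set D := F1 - F0 with hDdef
  have hD : IsProj D := hF0.sub hF1 hF10
  clear_value D
  have hP1F1 : ∀ i, P1 i * F1 = P1 i := by
    intro i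
    refine mul_supp_of_le (hP1 i).psd h1psd ?_
    rw [Matrix.le_iff]
    have : S1 - P1 i = ∑ j ∈ univ.erase i, P1 j := by
      rw [hS1, ← Finset.add_sum_erase univ _ (mem_univ i)]; abel
    rw [this]
    exact posSemidef_sum _ fun i _ => (hP1 i).psd
  have hAF1 : ∀ i, A i * F1 = A i := by
    intro i
    have h1 : A i * P1 i = A i := (hA i).comm_of_le (hP1 i) (hP1A i)
    rw [← h1, Matrix.mul_assoc, hP1F1 i]
  have hF1A : ∀ i, F1 * A i = A i := by
    intro i
    have := congrArg conjTranspose (hAF1 i)
    rwa [conjTranspose_mul, (hA i).herm, hF1.herm] at this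
  set X : Fin n → Matrix ι ι ℂ := fun i => D * A i * D with hXdef
  have hX : ∀ i, (X i).PosSemidef := by
    intro i
    have := (hA i).psd.conjTranspose_mul_mul_same D
    rwa [hD.herm] at this
  have hX1 : ∀ i, X i ≤ 1 := by
    intro i
    have h1 : X i ≤ D := by
      rw [Matrix.le_iff]
      have h2 := (hA i).one_sub.psd.conjTranspose_mul_mul_same D
      rw [hD.herm] at h2
      have h3 : D * (1 - A i) * D = D - X i := by
        calc D * (1 - A i) * D = D * D - D * A i * D := by noncomm_ring
          _ = _ := by rw [hD.idem]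
      rwa [h3] at h2
    have h2 : D ≤ 1 := by
      rw [Matrix.le_iff]; exact hD.one_sub.psd
    exact h1.trans h2
  set S := ∑ i, X i with hSdef
  have hS : S.PosSemidef := posSemidef_sum _ fun i _ => hX i
  have hXS : ∀ i, X i ≤ S := by
    intro i
    rw [Matrix.le_iff]
    have : S - X i = ∑ j ∈ univ.erase i, X j := by
      rw [hSdef, ← Finset.add_sum_erase univ _ (mem_univ i)]; abel
    rw [this]
    exact posSemidef_sum _ fun i _ => hX i
  have hDS : D * S = S := by
    rw [hSdef, mul_sum]
    refine sum_congr rfl fun i _ => ?_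
    simp only [hXdef]
    rw [← Matrix.mul_assoc, ← Matrix.mul_assoc, hD.idem]
  have hDsupp : D * supp S = supp S := by
    obtain ⟨B, hB⟩ := exists_supp hS.1
    have h1 : supp S = S * Bᴴ := by
      have := congrArg conjTranspose hB
      rwa [(supp_proj S).herm, conjTranspose_mul, hS.1.eq] at this
    rw [h1, ← Matrix.mul_assoc, hDS]
  have hsuppD : supp S * D = supp S := by
    have := congrArg conjTranspose hDsupp
    rwa [conjTranspose_mul, hD.herm, (supp_proj S).herm] at this
  set R := isqrt S with hRdef
  have hR : Rᴴ = R := isqrt_herm S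
  have hRD : R * D = R := by
    have h1 := isqrt_mul_supp S
    rw [← hRdef] at h1
    calc R * D = (R * supp S) * D := by rw [h1]
      _ = R * (supp S * D) := by rw [Matrix.mul_assoc]
      _ = R := by rw [hsuppD, h1]
  have hDR : D * R = R := by
    have := congrArg conjTranspose hRD
    rwa [conjTranspose_mul, hD.herm, hR] at this
  refine ⟨fun i => R * X i * R, fun i => ?_, ?_, ?_⟩
  · have := (hX i).conjTranspose_mul_mul_same R
    rwa [hR] at this
  · have h1 : ∑ i, R * X i * R = supp S := by
      rw [← sum_mul, ← mul_sum, ← hSdef]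
      exact isqrt_mul_isqrt hS
    rw [h1, Matrix.le_iff]
    exact ((supp_proj S).sub hD hDsupp).psd
  · -- the error
    show ∑ i, tr (A i * (1 - R * X i * R)) ≤ 63 / 2 * cross P1
    set a := ∑ i, tr (A i * F0) with hadef
    have hAD : ∀ i, tr (A i * D) = tr (A i) - tr (A i * F0) := by
      intro i
      rw [hDdef, mul_sub, tr_sub, hAF1]
    have htrX : ∀ i, tr (X i) = tr (A i) - tr (A i * F0) := by
      intro i
      rw [← hAD]
      simp only [hXdef]
      rw [tr_mul_comm, ← Matrix.mul_assoc, hD.idem, tr_mul_comm]
    have hterm : ∀ i, tr (A i * (1 - R * X i * R)) =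
        tr (A i * F0) + tr (X i * (1 - R * X i * R)) := by
      intro i
      rw [IsProj.tr_mul_one_sub, IsProj.tr_mul_one_sub, htrX]
      have h1 : tr (X i * (R * X i * R)) = tr (A i * (R * X i * R)) := by
        have h2 : D * (R * X i * R) * D = R * X i * R := by
          calc D * (R * X i * R) * D = (D * R) * X i * (R * D) := by noncomm_ring
            _ = _ := by rw [hDR, hRD]
        calc tr (X i * (R * X i * R)) = tr (D * (A i * D * (R * X i * R))) := by
              simp only [hXdef]; congr 1; noncomm_ring
          _ = tr (A i * D * (R * X i * R) * D) := tr_mul_comm _ _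
          _ = tr (A i * (D * (R * X i * R) * D)) := by congr 1; noncomm_ring
          _ = _ := by rw [h2]
      rw [h1]; ring
    have hsq : ∀ i, tr (X i) - tr (X i * X i) ≤ tr (A i * F0) := by
      intro i
      have h := hs_nonneg (A i - A i * D * A i)
      unfold hs at h
      have e : (A i - A i * D * A i)ᴴ * (A i - A i * D * A i) =
          A i * A i - A i * A i * D * A i - A i * D * (A i * A i) +
            A i * D * (A i * A i) * D * A i := by
        rw [conjTranspose_sub, conjTranspose_mul, conjTranspose_mul, (hA i).herm, hD.herm]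
        noncomm_ring
      rw [e, (hA i).idem, tr_add, tr_sub, tr_sub] at h
      have t1 : tr (A i * D * A i) = tr (X i) := by
        rw [htrX, ← hAD, tr_mul_comm, ← Matrix.mul_assoc, (hA i).idem]
      have t2 : tr (A i * D * A i * D * A i) = tr (X i * X i) := by
        have e1 : tr (A i * D * A i * D * A i) = tr (A i * D * A i * D) := by
          rw [tr_mul_comm]
          congr 1
          rw [← Matrix.mul_assoc, ← Matrix.mul_assoc, ← Matrix.mul_assoc, (hA i).idem]
        have e2 : tr (X i * X i) = tr (A i * D * A i * D) := by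
          calc tr (X i * X i) = tr (D * (A i * (D * D) * A i * D)) := by
                simp only [hXdef]; congr 1; noncomm_ring
            _ = tr (A i * (D * D) * A i * D * D) := tr_mul_comm _ _
            _ = tr (A i * (D * D) * A i * (D * D)) := by congr 1; noncomm_ring
            _ = _ := by rw [hD.idem]
        rw [e1, e2]
      rw [t1, t2] at h
      rw [htrX] at h ⊢
      linarith
    -- the cross terms
    have hcrossA : cross A ≤ cross P1 := cross_mono hA hP1 hP1A
    set T := ∑ i, A i with hTdef
    have hTpsd : T.PosSemidef := posSemidef_sum _ fun i _ => (hA i).psd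
    have hXX : ∀ i j, tr (X i * X j) = hs (A i * D * A j) := by
      intro i j
      unfold hs
      have e1 : (A i * D * A j)ᴴ * (A i * D * A j) = A j * (D * (A i * A i) * D * A j) := by
        rw [conjTranspose_mul, conjTranspose_mul, (hA i).herm, (hA j).herm, hD.herm]
        noncomm_ring
      rw [e1, tr_mul_comm (A j), (hA i).idem]
      have e2 : D * A i * D * A j * A j = D * A i * D * A j := by
        rw [Matrix.mul_assoc, (hA j).idem]
      rw [e2]
      calc tr (X i * X j) = tr (D * A i * (D * D) * A j * D) := by
            simp only [hXdef]; congr 1; noncomm_ring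
        _ = tr (D * (D * A i * D * A j)) := by
            rw [hD.idem, tr_mul_comm]
        _ = tr ((D * D) * A i * D * A j) := by congr 1; noncomm_ring
        _ = _ := by rw [hD.idem]
    have hbound : ∀ i j, hs (A i * D * A j) ≤ 2 * tr (A i * A j) + 2 * hs (A i * F0 * A j) := by
      intro i j
      have e : A i * D * A j = A i * A j + (-(A i * F0 * A j)) := by
        calc A i * D * A j = (A i * F1) * A j - A i * F0 * A j := by rw [hDdef]; noncomm_ring
          _ = _ := by rw [hAF1]; abel
      rw [e]
      refine (hs_add_le _ _).trans ?_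
      have h1 : hs (-(A i * F0 * A j)) = hs (A i * F0 * A j) := by
        unfold hs; rw [conjTranspose_neg, neg_mul_neg]
      rw [h1, (hA i).hs_eq (hA j)]
    have hTF : ∑ i, ∑ j, hs (A i * F0 * A j) ≤ 2 * a + 2 * cross A := by
      have e1 : ∑ i, ∑ j, hs (A i * F0 * A j) = hs (F0 * T * F0) := by
        have h1 : ∀ i j, hs (A i * F0 * A j) = tr (A j * F0 * A i * F0) := by
          intro i j
          unfold hs
          have e1 : (A i * F0 * A j)ᴴ * (A i * F0 * A j) = A j * (F0 * (A i * A i) * F0 * A j) := by
            rw [conjTranspose_mul, conjTranspose_mul, (hA i).herm, (hA j).herm, hF0.herm]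
            noncomm_ring
          rw [e1, tr_mul_comm (A j), (hA i).idem]
          have e2 : F0 * A i * F0 * A j * A j = F0 * A i * F0 * A j := by
            rw [Matrix.mul_assoc, (hA j).idem]
          rw [e2, tr_mul_comm]
          congr 1
          noncomm_ring
        have h2 : hs (F0 * T * F0) = tr (T * F0 * T * F0) := by
          unfold hs
          have e1 : (F0 * T * F0)ᴴ * (F0 * T * F0) = F0 * (T * (F0 * F0) * T * F0) := by
            rw [conjTranspose_mul, conjTranspose_mul, hTpsd.1.eq, hF0.herm]
            noncomm_ring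
          rw [e1, tr_mul_comm, hF0.idem]
          congr 1
          rw [Matrix.mul_assoc, hF0.idem]
        rw [h2, hTdef]
        simp only [h1]
        rw [sum_comm]
        simp only [sum_mul, mul_sum, tr_sum]
        rw [sum_comm]
      have e2 : hs (F0 * T * F0) ≤ tr (T * T * F0) := by
        have h1 : hs (F0 * T * F0) ≤ hs (T * F0) := by
          rw [Matrix.mul_assoc]; exact hs_mul_le' hF0
        have h2 : hs (T * F0) = tr (T * T * F0) := by
          unfold hs
          rw [conjTranspose_mul, hTpsd.1.eq, hF0.herm, Matrix.mul_assoc, tr_mul_comm]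
          congr 1
          rw [Matrix.mul_assoc, Matrix.mul_assoc, hF0.idem, Matrix.mul_assoc]
        linarith
      have e3 : T * T ≤ (2 : ℝ) • T + (2 : ℝ) • ((T - supp T) * (T - supp T)) := by
        have l1 : T * T = cfc (fun x : ℝ => x * x) T := by
          rw [cfc_mul _ _ T (contOn _ _) (contOn _ _), cfc_self hTpsd]
        have l2 : (2 : ℝ) • T + (2 : ℝ) • ((T - supp T) * (T - supp T)) =
            cfc (fun x : ℝ => 2 * x +
              2 * ((x - if x = 0 then 0 else 1) * (x - if x = 0 then 0 else 1))) T := by
          rw [cfc_add T _ _ (contOn _ _) (contOn _ _), cfc_const_mul _ _ T (contOn _ _),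
            cfc_const_mul _ _ T (contOn _ _), cfc_dev hTpsd, cfc_self hTpsd]
        rw [l1, l2]
        refine cfc_le hTpsd _ _ fun x hx => ?_
        split_ifs with h
        · simp [h]
        · nlinarith [mul_self_nonneg (x - 1)]
      have e4 := tr_mul_mono e3 hF0.psd
      rw [add_mul, tr_add, smul_mul_assoc, tr_smul, smul_mul_assoc, tr_smul] at e4
      have e5 : tr ((T - supp T) * (T - supp T) * F0) ≤ cross A := by
        have hpsd : ((T - supp T) * (T - supp T)).PosSemidef := by
          have hh : (T - supp T)ᴴ = T - supp T := by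
            rw [conjTranspose_sub, hTpsd.1.eq, (supp_proj T).herm]
          have := posSemidef_conjTranspose_mul_self (T - supp T)
          rwa [hh] at this
        have h1 : F0 ≤ 1 := by rw [Matrix.le_iff]; exact hF0.one_sub.psd
        have h2 := tr_mul_mono' h1 hpsd
        rw [mul_one] at h2
        exact h2.trans (gram A hA)
      have e6 : tr (T * F0) = a := by
        rw [hTdef, sum_mul, tr_sum]
      rw [e1]
      rw [e6] at e4
      linarith
    have hcross : ∑ i, tr (X i * (S - X i)) ≤ 6 * cross P1 + 4 * a := by
      have h1 : ∀ i, tr (X i * (S - X i)) ≤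
          ∑ j, (2 * (if i = j then 0 else tr (A i * A j)) + 2 * hs (A i * F0 * A j)) := by
        intro i
        have e : S - X i = ∑ j ∈ univ.erase i, X j := by
          rw [hSdef, ← Finset.add_sum_erase univ _ (mem_univ i)]; abel
        rw [e, mul_sum, tr_sum, ← Finset.add_sum_erase univ _ (mem_univ i), if_pos rfl]
        have h2 : ∑ j ∈ univ.erase i, tr (X i * X j) ≤ ∑ j ∈ univ.erase i,
            (2 * (if i = j then 0 else tr (A i * A j)) + 2 * hs (A i * F0 * A j)) := by
          refine sum_le_sum fun j hj => ?_
          rw [if_neg (Finset.ne_of_mem_erase hj).symm, hXX]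
          exact hbound i j
        have h3 := hs_nonneg (A i * F0 * A i)
        linarith
      refine (sum_le_sum fun i _ => h1 i).trans ?_
      simp only [sum_add_distrib, ← mul_sum]
      have : (∑ i, ∑ j, if i = j then 0 else tr (A i * A j)) = cross A := rfl
      rw [this]
      linarith
    have hpgm : ∀ i, tr (X i * (1 - R * X i * R)) ≤ tr (A i * F0) + tr (X i * (S - X i)) := by
      intro i
      have h1 := pgm (hX i) (hX1 i) hS (hXS i)
      have h2 := hsq i
      rw [← hRdef] at h1
      linarith
    have hsum : ∑ i, tr (A i * (1 - R * X i * R)) ≤ a + (a + (6 * cross P1 + 4 * a)) := by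
      rw [sum_congr rfl fun i _ => hterm i, sum_add_distrib]
      have := sum_le_sum fun i (_ : i ∈ (univ : Finset (Fin n))) => hpgm i
      rw [sum_add_distrib] at this
      linarith
    have ha : a ≤ 17 / 4 * cross P1 := hleak
    linarith

end Pool.Agent.U324.MTI
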