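import Pool.Agent.U324.MTI.Final

set_option autoImplicit false

open Matrix Finset
open scoped ComplexOrder MatrixOrder

namespace Pool.Agent.U324.MTI

variable {ι : Type*} [Fintype ι] [DecidableEq ι]

lemma exists_scales {n : ℕ} (A : Fin n → Matrix ι ι ℂ) :
    ∃ T : ℝ, 0 < T ∧ ∃ N : ℕ, ∀ i, ∀ x ∈ spectrum ℝ (A i), x ≤ T ∧
      (0 < x → T / 2 ^ N < x) := by
  have hfin : (⋃ i, spectrum ℝ (A i)).Finite := Set.finite_iUnion fun i => (A i).finite_real_spectrum
  obtain ⟨T0, hT0⟩ := hfin.bddAbove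
  set T := max T0 1 with hT
  have hTpos : 0 < T := lt_of_lt_of_le one_pos (le_max_right _ _)
  obtain ⟨b, hb⟩ := (hfin.image fun x => x⁻¹).bddAbove
  obtain ⟨N, hN⟩ := pow_unbounded_of_one_lt (T * b) one_lt_two
  refine ⟨T, hTpos, N, fun i x hx => ⟨?_, fun hx0 => ?_⟩⟩
  · exact (hT0 (Set.mem_iUnion.2 ⟨i, hx⟩)).trans (le_max_left _ _)
  · have h1 : x⁻¹ ≤ b := hb ⟨x, Set.mem_iUnion.2 ⟨i, hx⟩, rfl⟩
    have h2 : T * x⁻¹ < 2 ^ N := lt_of_le_of_lt (mul_le_mul_of_nonneg_left h1 hTpos.le) hN
    have hrN : (0 : ℝ) < 2 ^ N := by positivity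
    rw [div_lt_iff₀ hrN]
    rw [← div_eq_mul_inv, div_lt_iff₀ hx0] at h2
    linarith

lemma above_top {A : Matrix ι ι ℂ} {T : ℝ} (h : ∀ x ∈ spectrum ℝ A, x ≤ T) : above A T = 0 := by
  unfold above
  rw [← cfc_zero ℝ A]
  refine cfc_congr fun x hx => ?_
  simp [not_lt.2 (h x hx)]

/-- there is a measurement whose error is at most `126` times the sum over all ordered pairs of
twice the errors of the optimal tests for two hypotheses -/
theorem exists_measurement (n : ℕ) (A : Fin n → Matrix ι ι ℂ) (hA : ∀ j, (A j).PosSemidef) :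
    ∃ E : Fin n → Matrix ι ι ℂ, (∀ i, (E i).PosSemidef) ∧ ∑ i, E i ≤ 1 ∧
      ∑ i, tr (A i * (1 - E i)) ≤ 126 * ∑ i, ∑ j, if i = j then 0 else
        (tr (A i + A j) - traceNorm (A i - A j)) := by
  obtain ⟨T, hT, N, hTN⟩ := exists_scales A
  set t : ℕ → ℝ := fun k => T / 2 ^ k with ht
  have ht0 : ∀ k, 0 ≤ t k := fun k => by simp only [ht]; positivity
  have hhalf : ∀ k, t (k + 1) = t k / 2 := by
    intro k; simp only [ht]; rw [pow_succ]; field_simp
  have hanti : ∀ k, t (k + 1) ≤ t k := by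
    intro k; rw [hhalf]; linarith [ht0 k]
  set P : ℕ → Fin n → Matrix ι ι ℂ := fun k i => above (A i) (t k) with hP
  have hPproj : ∀ k i, IsProj (P k i) := fun k i => above_proj _ _
  have hmono : ∀ k i, P (k + 1) i * P k i = P k i := fun k i => above_mono _ (hanti k)
  choose E hE hEle hEerr using fun k => level (P k) (P (k + 1)) (hPproj k) (hPproj (k + 1)) (hmono k)
  refine ⟨fun i => ∑ k ∈ range N, E k i, fun i => posSemidef_sum _ fun k _ => hE k i, ?_, ?_⟩
  · rw [sum_comm]
    refine (sum_le_sum fun k _ => hEle k).trans ?_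
    rw [Finset.sum_range_sub (fun k => supp (∑ j, P k j))]
    have h1 : ((supp (∑ j, P 0 j)) + (1 - supp (∑ j, P N j))).PosSemidef :=
      (supp_proj _).psd.add (supp_proj _).one_sub.psd
    rw [Matrix.le_iff]
    have e : (1 : Matrix ι ι ℂ) - (supp (∑ j, P N j) - supp (∑ j, P 0 j)) =
        supp (∑ j, P 0 j) + (1 - supp (∑ j, P N j)) := by abel
    rw [e]; exact h1
  · -- the total error
    have hsum1 : ∀ k, ∑ i, E k i ≤ 1 := by
      intro k
      refine (hEle k).trans ?_
      rw [Matrix.le_iff]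
      have e : (1 : Matrix ι ι ℂ) - (supp (∑ j, P (k + 1) j) - supp (∑ j, P k j)) =
          supp (∑ j, P k j) + (1 - supp (∑ j, P (k + 1) j)) := by abel
      rw [e]; exact (supp_proj _).psd.add (supp_proj _).one_sub.psd
    have hone : ∑ i, ∑ k ∈ range N, E k i ≤ 1 := by
      rw [sum_comm]
      refine (sum_le_sum fun k _ => hEle k).trans ?_
      rw [Finset.sum_range_sub (fun k => supp (∑ j, P k j)), Matrix.le_iff]
      have e : (1 : Matrix ι ι ℂ) - (supp (∑ j, P N j) - supp (∑ j, P 0 j)) =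
          supp (∑ j, P 0 j) + (1 - supp (∑ j, P N j)) := by abel
      rw [e]; exact (supp_proj _).psd.add (supp_proj _).one_sub.psd
    have hone' : ∀ i, (1 - ∑ k ∈ range N, E k i).PosSemidef := by
      intro i
      have h1 : ∑ k ∈ range N, E k i ≤ 1 := by
        refine le_trans ?_ hone
        rw [Matrix.le_iff, ← Finset.add_sum_erase univ _ (mem_univ i), add_sub_cancel_left]
        exact posSemidef_sum _ fun j _ => posSemidef_sum _ fun k _ => hE k j
      exact h1
    have h1 : ∀ i, tr (A i * (1 - ∑ k ∈ range N, E k i)) ≤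
        ∑ k ∈ range N, t k * tr ((P (k + 1) i - P k i) * (1 - E k i)) := by
      intro i
      have h2 := tr_mul_mono (le_layers (hA i) t ht0 hanti N
        (fun x hx => by
          have : t 0 = T := by simp [ht]
          rw [this]; exact (hTN i x hx).1)
        (fun x hx h => (hTN i x hx).2 h)) (hone' i)
      refine h2.trans ?_
      rw [sum_mul, tr_sum]
      refine sum_le_sum fun k hk => ?_
      rw [smul_mul_assoc, tr_smul]
      refine mul_le_mul_of_nonneg_left ?_ (ht0 k)
      refine tr_mul_mono' ?_ ((hPproj k i).sub (hPproj (k + 1) i) (hmono k i)).psd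
      rw [Matrix.le_iff]
      have e : (1 - E k i) - (1 - ∑ k ∈ range N, E k i) = ∑ l ∈ (range N).erase k, E l i := by
        rw [← Finset.add_sum_erase (range N) _ hk]; abel
      rw [e]
      exact posSemidef_sum _ fun l _ => hE l i
    have h2 : ∑ i, tr (A i * (1 - ∑ k ∈ range N, E k i)) ≤
        ∑ k ∈ range N, t k * (63 / 2 * cross (P (k + 1))) := by
      refine (sum_le_sum fun i _ => h1 i).trans ?_
      rw [sum_comm]
      refine sum_le_sum fun k _ => ?_
      rw [← mul_sum]
      exact mul_le_mul_of_nonneg_left (hEerr k) (ht0 k)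
    -- lower bound of the layers
    have h4 : ∑ k ∈ range (N + 1), (t k - t (k + 1)) * cross (P k) ≤
        ∑ i, ∑ j, if i = j then 0 else (tr (A i + A j) - traceNorm (A i - A j)) := by
      unfold cross
      simp only [mul_sum]
      rw [sum_comm]
      refine sum_le_sum fun i _ => ?_
      rw [sum_comm]
      refine sum_le_sum fun j _ => ?_
      by_cases hij : i = j
      · simp [hij]
      · simp only [if_neg hij]
        exact pair_bound (hA i) (hA j) t ht0 hanti (N + 1)
    rw [Finset.sum_range_succ'] at h4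
    have h5 : 0 ≤ (t 0 - t (0 + 1)) * cross (P 0) :=
      mul_nonneg (by linarith [hanti 0]) (cross_nonneg (hPproj 0))
    have h6 : ∑ k ∈ range N, t k * (63 / 2 * cross (P (k + 1))) =
        126 * ∑ k ∈ range N, (t (k + 1) - t (k + 1 + 1)) * cross (P (k + 1)) := by
      rw [mul_sum]
      refine sum_congr rfl fun k _ => ?_
      rw [hhalf (k + 1), hhalf k]; ring
    rw [h6] at h2
    linarith

theorem main (n : ℕ) (A : Fin n → Matrix ι ι ℂ) (hA : ∀ j, (A j).PosSemidef) :
    ∑ j, tr (A j) - tr (CFC.sqrt (∑ j, A j * A j)) ≤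
      126 * ∑ i, ∑ j, if i = j then 0 else (tr (A i + A j) - traceNorm (A i - A j)) := by
  obtain ⟨E, hE, hE1, herr⟩ := exists_measurement n A hA
  have h1 := sqrt_bound A E (fun i => (hA i).1) hE hE1
  have h7 : ∑ i, tr (A i * (1 - E i)) = ∑ i, tr (A i) - ∑ i, tr (A i * E i) := by
    rw [← sum_sub_distrib]
    exact sum_congr rfl fun i _ => IsProj.tr_mul_one_sub _
  rw [h7] at herr
  linarith

end Pool.Agent.U324.MTI
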