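import Pool.Agent.U324.MTI.Basic

set_option autoImplicit false

open Matrix
open scoped ComplexOrder MatrixOrder

namespace Pool.Agent.U324.MTI

variable {ι : Type*} [Fintype ι] [DecidableEq ι]

lemma contOn (f : ℝ → ℝ) (A : Matrix ι ι ℂ) : ContinuousOn f (spectrum ℝ A) :=
  A.finite_real_spectrum.continuousOn f

lemma cfc_star (f : ℝ → ℝ) (A : Matrix ι ι ℂ) : (cfc f A)ᴴ = cfc f A := by
  have : IsSelfAdjoint (cfc f A) := cfc_predicate f A
  exact this

lemma cfc_proj (A : Matrix ι ι ℂ) (f : ℝ → ℝ) (hf : ∀ x, f x * f x = f x) :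
    IsProj (cfc f A) := by
  refine ⟨cfc_star f A, ?_⟩
  rw [← cfc_mul f f A (contOn _ _) (contOn _ _)]
  congr 1
  funext x
  exact hf x

/-- spectral projection of `A` for the half line `(t, ∞)` -/
noncomputable def above (A : Matrix ι ι ℂ) (t : ℝ) : Matrix ι ι ℂ :=
  cfc (fun x : ℝ => if t < x then (1 : ℝ) else 0) A

lemma above_proj (A : Matrix ι ι ℂ) (t : ℝ) : IsProj (above A t) := by
  refine cfc_proj A _ fun x => ?_
  split_ifs <;> simp

lemma above_mono (A : Matrix ι ι ℂ) {s t : ℝ} (h : s ≤ t) :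
    above A s * above A t = above A t := by
  unfold above
  rw [← cfc_mul _ _ A (contOn _ _) (contOn _ _)]
  congr 1
  funext x
  by_cases h1 : t < x
  · have : s < x := lt_of_le_of_lt h h1
    simp [h1, this]
  · simp [h1]

/-- kernel projection -/
noncomputable def ker (A : Matrix ι ι ℂ) : Matrix ι ι ℂ :=
  cfc (fun x : ℝ => if x = 0 then (1 : ℝ) else 0) A

lemma ker_proj (A : Matrix ι ι ℂ) : IsProj (ker A) := by
  refine cfc_proj A _ fun x => ?_
  split_ifs <;> simp

lemma mul_ker {A : Matrix ι ι ℂ} (hA : A.IsHermitian) : A * ker A = 0 := by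
  have hA' : IsSelfAdjoint A := hA
  have h1 : A * ker A = cfc (fun x : ℝ => x) A * ker A := by rw [cfc_id' ℝ A]
  rw [h1]
  unfold ker
  rw [← cfc_mul _ _ A (contOn _ _) (contOn _ _)]
  have : (fun x : ℝ => x * (if x = 0 then (1 : ℝ) else 0)) = fun _ => 0 := by
    funext x
    split_ifs with h <;> simp [h]
  rw [this]
  exact cfc_zero ℝ A

/-- `1 - ker A = B * A` for some `B` -/
lemma exists_one_sub_ker {A : Matrix ι ι ℂ} (hA : A.IsHermitian) :
    ∃ B : Matrix ι ι ℂ, 1 - ker A = B * A := by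
  have hA' : IsSelfAdjoint A := hA
  refine ⟨cfc (fun x : ℝ => x⁻¹) A, ?_⟩
  have h1 : cfc (fun x : ℝ => x⁻¹) A * A = cfc (fun x : ℝ => x⁻¹) A * cfc (fun x : ℝ => x) A := by
    rw [cfc_id' ℝ A]
  rw [h1, ← cfc_mul _ _ A (contOn _ _) (contOn _ _)]
  have h2 : (1 : Matrix ι ι ℂ) = cfc (fun _ : ℝ => (1 : ℝ)) A := (cfc_const_one ℝ A).symm
  unfold ker
  rw [h2, ← cfc_sub _ _ A (contOn _ _) (contOn _ _)]
  congr 1
  funext x
  split_ifs with h
  · simp [h]
  · simp [h]

lemma IsProj.tr_eq_rank {P : Matrix ι ι ℂ} (hP : IsProj P) : tr P = P.rank := by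
  have h1 : IsIdempotentElem (Matrix.toLin' P) := by
    unfold IsIdempotentElem
    rw [Module.End.mul_eq_comp, ← Matrix.toLin'_mul, hP.idem]
  have h2 := ((LinearMap.isProj_range_iff_isIdempotentElem _).2 h1).trace
  rw [Matrix.trace_toLin'_eq] at h2
  unfold tr
  rw [h2]
  simp only [Complex.natCast_re, Matrix.rank, Matrix.toLin'_apply']
  rfl

omit [DecidableEq ι] in
lemma rank_add_le' (X Y : Matrix ι ι ℂ) : (X + Y).rank ≤ X.rank + Y.rank := by
  unfold Matrix.rank
  have h1 : LinearMap.range (X + Y).mulVecLin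
      ≤ LinearMap.range X.mulVecLin ⊔ LinearMap.range Y.mulVecLin := by
    rintro _ ⟨v, rfl⟩
    rw [Matrix.mulVecLin_apply, Matrix.add_mulVec]
    exact Submodule.add_mem_sup ⟨v, rfl⟩ ⟨v, rfl⟩
  exact (Submodule.finrank_mono h1).trans (Submodule.finrank_add_le_finrank_add_finrank _ _)

/-- (E1): inside `P` there is a projection orthogonal to `Q` of rank at least
`rank P - rank Q` -/
lemma exists_inter {P Q : Matrix ι ι ℂ} (hP : IsProj P) (hQ : IsProj Q) :
    ∃ U : Matrix ι ι ℂ, IsProj U ∧ P * U = U ∧ Q * U = 0 ∧ tr P - tr Q ≤ tr U := by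
  set H := (1 - P) + Q with hH
  have hHpsd : H.PosSemidef := hP.one_sub.psd.add hQ.psd
  have hK := ker_proj H
  have h0 : H * ker H = 0 := mul_ker hHpsd.1
  refine ⟨ker H, hK, ?_, ?_, ?_⟩
  · have h1 : (ker H * (1 - P) * ker H) + ker H * Q * ker H = 0 := by
      have : ker H * (H * ker H) = 0 := by rw [h0, mul_zero]
      rw [hH] at this ⊢
      rw [← this]
      noncomm_ring
    have p1 : 0 ≤ hs ((1 - P) * ker H) := hs_nonneg _
    have p2 : 0 ≤ hs (Q * ker H) := hs_nonneg _
    have e1 : hs ((1 - P) * ker H) = tr (ker H * (1 - P) * ker H) := by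
      unfold hs
      rw [conjTranspose_mul, hK.herm, hP.one_sub.herm]
      congr 1
      rw [Matrix.mul_assoc, ← Matrix.mul_assoc (1 - P), hP.one_sub.idem, Matrix.mul_assoc]
    have e2 : hs (Q * ker H) = tr (ker H * Q * ker H) := by
      unfold hs
      rw [conjTranspose_mul, hK.herm, hQ.herm]
      congr 1
      rw [Matrix.mul_assoc, ← Matrix.mul_assoc Q, hQ.idem, Matrix.mul_assoc]
    have e3 : hs ((1 - P) * ker H) + hs (Q * ker H) = 0 := by
      rw [e1, e2, ← tr_add, h1, tr_zero]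
    have e4 : hs ((1 - P) * ker H) = 0 := by linarith
    have e5 : (1 - P) * ker H = 0 := by
      unfold hs tr at e4
      have h3 : (((1 - P) * ker H)ᴴ * ((1 - P) * ker H)).trace = 0 := by
        apply Complex.ext
        · exact e4
        · have := (posSemidef_conjTranspose_mul_self ((1 - P) * ker H)).trace_nonneg
          exact (Complex.le_def.1 this).2.symm
      exact Matrix.trace_conjTranspose_mul_self_eq_zero_iff.1 h3
    rw [sub_mul, one_mul, sub_eq_zero] at e5
    exact e5.symm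
  · have h1 : (ker H * (1 - P) * ker H) + ker H * Q * ker H = 0 := by
      have : ker H * (H * ker H) = 0 := by rw [h0, mul_zero]
      rw [hH] at this ⊢
      rw [← this]
      noncomm_ring
    have p1 : 0 ≤ hs ((1 - P) * ker H) := hs_nonneg _
    have p2 : 0 ≤ hs (Q * ker H) := hs_nonneg _
    have e1 : hs ((1 - P) * ker H) = tr (ker H * (1 - P) * ker H) := by
      unfold hs
      rw [conjTranspose_mul, hK.herm, hP.one_sub.herm]
      congr 1
      rw [Matrix.mul_assoc, ← Matrix.mul_assoc (1 - P), hP.one_sub.idem, Matrix.mul_assoc]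
    have e2 : hs (Q * ker H) = tr (ker H * Q * ker H) := by
      unfold hs
      rw [conjTranspose_mul, hK.herm, hQ.herm]
      congr 1
      rw [Matrix.mul_assoc, ← Matrix.mul_assoc Q, hQ.idem, Matrix.mul_assoc]
    have e3 : hs ((1 - P) * ker H) + hs (Q * ker H) = 0 := by
      rw [e1, e2, ← tr_add, h1, tr_zero]
    have e4 : hs (Q * ker H) = 0 := by linarith
    unfold hs tr at e4
    have h3 : ((Q * ker H)ᴴ * (Q * ker H)).trace = 0 := by
      apply Complex.ext
      · exact e4
      · have := (posSemidef_conjTranspose_mul_self (Q * ker H)).trace_nonneg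
        exact (Complex.le_def.1 this).2.symm
    exact Matrix.trace_conjTranspose_mul_self_eq_zero_iff.1 h3
  · obtain ⟨B, hB⟩ := exists_one_sub_ker hHpsd.1
    have r1 : (1 - ker H).rank ≤ H.rank := by
      rw [hB]; exact Matrix.rank_mul_le_right B H
    have r2 : H.rank ≤ (1 - P).rank + Q.rank := rank_add_le' _ _
    have t1 := hK.one_sub.tr_eq_rank
    have t2 := hP.one_sub.tr_eq_rank
    have t3 := hQ.tr_eq_rank
    have r3 : ((1 - ker H).rank : ℝ) ≤ (1 - P).rank + Q.rank := by exact_mod_cast r1.trans r2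
    rw [← t1, ← t2, ← t3, tr_sub, tr_sub] at r3
    linarith

/-- (E2): Gram-Schmidt step -/
lemma exists_gs {G U : Matrix ι ι ℂ} (hG : IsProj G) (hU : IsProj U) :
    ∃ V : Matrix ι ι ℂ, IsProj V ∧ G * V = 0 ∧ tr V ≤ tr U ∧ tr (U * (1 - V)) ≤ tr (U * G) := by
  set M := (1 - G) * U with hM
  set H := M * Mᴴ with hH
  have hHpsd : H.PosSemidef := posSemidef_self_mul_conjTranspose M
  have hK := ker_proj H
  have h0 : H * ker H = 0 := mul_ker hHpsd.1
  have h0' : ker H * H = 0 := by
    have := congrArg conjTranspose h0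
    rwa [conjTranspose_mul, hK.herm, hHpsd.1.eq, conjTranspose_zero] at this
  obtain ⟨B, hB⟩ := exists_one_sub_ker hHpsd.1
  have hB' : 1 - ker H = H * Bᴴ := by
    have := congrArg conjTranspose hB
    rwa [conjTranspose_mul, hK.one_sub.herm, hHpsd.1.eq] at this
  -- `ker H * M = 0`
  have h1 : ker H * M = 0 := by
    have h2 : (Mᴴ * ker H)ᴴ * (Mᴴ * ker H) = 0 := by
      rw [conjTranspose_mul, conjTranspose_conjTranspose, hK.herm]
      calc ker H * M * (Mᴴ * ker H) = ker H * (M * Mᴴ) * ker H := by noncomm_ring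
        _ = 0 := by rw [← hH, h0', zero_mul]
    have h3 := Matrix.conjTranspose_mul_self_eq_zero.1 h2
    have := congrArg conjTranspose h3
    rwa [conjTranspose_mul, hK.herm, conjTranspose_conjTranspose, conjTranspose_zero] at this
  have hGM : G * M = 0 := by
    rw [hM, ← Matrix.mul_assoc, mul_sub, mul_one, hG.idem, sub_self, zero_mul]
  refine ⟨1 - ker H, hK.one_sub, ?_, ?_, ?_⟩
  · rw [hB', hH]
    calc G * (M * Mᴴ * Bᴴ) = (G * M) * (Mᴴ * Bᴴ) := by noncomm_ring
      _ = 0 := by rw [hGM, zero_mul]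
  · rw [hK.one_sub.tr_eq_rank, hU.tr_eq_rank]
    have r1 : (1 - ker H).rank ≤ U.rank := by
      rw [hB', hH, hM]
      calc ((1 - G) * U * ((1 - G) * U)ᴴ * Bᴴ).rank
          = ((1 - G) * (U * (((1 - G) * U)ᴴ * Bᴴ))).rank := by
            congr 1; noncomm_ring
        _ ≤ (U * (((1 - G) * U)ᴴ * Bᴴ)).rank := Matrix.rank_mul_le_right _ _
        _ ≤ U.rank := Matrix.rank_mul_le_left _ _
    exact_mod_cast r1
  · rw [sub_sub_cancel]
    -- `U * ker H = U * G * ker H`
    have h4 : ker H * U = ker H * (G * U) := by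
      have : ker H * ((1 - G) * U) = 0 := h1
      rw [sub_mul, one_mul, mul_sub, sub_eq_zero] at this
      exact this
    have h5 : tr (U * ker H) = hs (ker H * U) := by
      rw [hK.hs_eq hU, tr_mul_comm]
    rw [h5, h4]
    refine (hs_mul_le' hK).trans ?_
    rw [hG.hs_eq hU, tr_mul_comm]

end Pool.Agent.U324.MTI
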